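import Pool.Agent.H95.PI.Stm

/-!
# Team PI: exchanging the quantifiers
-/

set_option autoImplicit false
set_option linter.unusedVariables false

open MeasureTheory Filter Set
open scoped ENNReal Topology

namespace Pool.Agent.H95.PI

open Pool.Agent.R528.RM Pool.Agent.N9.AD

/-- `N` is exceptional: there is `x < N / 2` of rank at least `κ (log N)²` such that `N` is not a sum of
an element `t ≤ x` of `U` and an element of `A` -/
def ExcR {Ω : Type} (A U : ℕ → Set Ω) (κ : ℝ) (ω : Ω) (N : ℕ) : Prop :=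
  ∃ x : ℕ, 2 * x < N ∧ κ * Real.log N ^ 2 ≤ rk U ω x ∧ ∀ t, 1 ≤ t → t ≤ x → ω ∈ U t → ω ∉ A (N - t)

lemma ExcR_mono {Ω : Type} {A U : ℕ → Set Ω} {κ κ' : ℝ} (h : κ' ≤ κ) {ω : Ω} {N : ℕ}
    (hN : ExcR A U κ ω N) : ExcR A U κ' ω N := by
  obtain ⟨x, h1, h2, h3⟩ := hN
  refine ⟨x, h1, le_trans ?_ h2, h3⟩
  exact mul_le_mul_of_nonneg_right h (sq_nonneg _)

section

variable {Ω : Type} [m0 : MeasurableSpace Ω] {μ : Measure Ω} [IsProbabilityMeasure μ]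
  {ℱ : Filtration ℕ m0} {A U : ℕ → Set Ω} {W : ℕ} {σ : ℕ → ℝ}

/-- powers beat constants -/
lemma pow_beats {a b C : ℝ} (hb : 0 < b) (hab : a < b) :
    ∀ᶠ X : ℕ in atTop, C + C * (X : ℝ) ^ a ≤ (X : ℝ) ^ b := by
  have h1 : Tendsto (fun X : ℕ => C * (X : ℝ) ^ (-b) + C * (X : ℝ) ^ (a - b)) atTop (𝓝 (C * 0 + C * 0)) := by
    refine Tendsto.add (Tendsto.const_mul _ ?_) (Tendsto.const_mul _ ?_)
    · exact (tendsto_rpow_neg_atTop hb).comp tendsto_natCast_atTop_atTop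
    · have := (tendsto_rpow_neg_atTop (show 0 < b - a by linarith)).comp
        (tendsto_natCast_atTop_atTop (R := ℝ))
      refine this.congr fun X => ?_
      simp [neg_sub]
  rw [mul_zero, add_zero] at h1
  filter_upwards [h1.eventually (gt_mem_nhds zero_lt_one), eventually_gt_atTop 0] with X hX hX0
  have hX' : (0 : ℝ) < X := by exact_mod_cast hX0
  have h2 : 0 < (X : ℝ) ^ b := Real.rpow_pos_of_pos hX' _
  rw [Real.rpow_neg hX'.le, Real.rpow_sub hX'] at hX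
  have h3 : C + C * (X : ℝ) ^ a = (C * ((X : ℝ) ^ b)⁻¹ + C * ((X : ℝ) ^ a / (X : ℝ) ^ b)) * (X : ℝ) ^ b := by
    field_simp
  rw [h3]
  have := mul_le_mul_of_nonneg_right hX.le h2.le
  linarith

theorem upper_ae (hAUP : S_AUP) (hCNT : S_CNT) (hA : ∀ n, MeasurableSet[ℱ n] (A n))
    (hU : ∀ n, MeasurableSet[ℱ n] (U n))
    (hd : ∀ᵐ ω ∂μ, ∀ ε : ℝ, 0 < ε → ∀ᶠ n : ℕ in atTop,
      |dens μ ℱ A n ω - rhoW W (n + 1)| ≤ ε * rhoW W (n + 1))
    (hlaw : ∀ᵐ ω ∂μ, Law U W σ ω) :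
    ∀ᵐ ω ∂μ, ∀ r : ℕ, 0 < σ r → ∀ κ : ℝ, 0 ≤ κ →
      (1 < κ * σ r → ∀ᶠ N : ℕ in atTop, σ N = σ r → ¬ ExcR A U κ ω N) ∧
      (κ * σ r ≤ 1 → ∀ ε : ℝ, 0 < ε → ∀ᶠ X : ℕ in atTop,
        (({N : ℕ | N ≤ X ∧ σ N = σ r ∧ ExcR A U κ ω N}.ncard : ℕ) : ℝ) ≤ (X : ℝ) ^ (1 - κ * σ r + ε)) := by
  have hfam : ∀ᵐ ω ∂μ, ∀ r : ℕ, ∀ q : ℚ, ∀ n : ℕ, 0 < σ r → (0 : ℝ) ≤ q →
      (1 < q * σ r - 1 / ((n : ℝ) + 1) → ∀ᶠ N : ℕ in atTop, σ N = σ r → ¬ ExcR A U q ω N) ∧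
      (q * σ r ≤ 1 → ∃ C : ℝ, ∀ X : ℕ, 1 ≤ X →
        (({N : ℕ | N ≤ X ∧ σ N = σ r ∧ ExcR A U q ω N}.ncard : ℕ) : ℝ) ≤
          C + C * (X : ℝ) ^ (1 - q * σ r + 2 * (1 / ((n : ℝ) + 1)))) := by
    refine ae_all_iff.2 fun r => ae_all_iff.2 fun q => ae_all_iff.2 fun n => ?_
    by_cases hr : 0 < σ r
    swap
    · exact Eventually.of_forall fun ω h => absurd h hr
    by_cases hq : (0 : ℝ) ≤ q
    swap
    · exact Eventually.of_forall fun ω _ h => absurd h hq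
    have hη : (0 : ℝ) < 1 / ((n : ℝ) + 1) := by positivity
    set η : ℝ := 1 / ((n : ℝ) + 1) with hηdef
    obtain ⟨E, hE1, hE2, hE3⟩ := hAUP Ω μ ℱ A U W σ hA hU hd hlaw (σ r) q η hr hq hη
    have hBC : ∀ᵐ ω ∂μ, 1 < q * σ r - η → ∀ᶠ N : ℕ in atTop, ω ∉ E N := by
      by_cases h1 : 1 < q * σ r - η
      · have hsum : Summable (fun N : ℕ => (N : ℝ) ^ (-(q * σ r - η))) := by
          have := Real.summable_nat_rpow_inv.2 h1
          refine this.congr fun N => ?_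
          rw [Real.rpow_neg (Nat.cast_nonneg _)]
        filter_upwards [bc_real (μ := μ) hsum hE2] with ω hω _
        exact hω
      · exact Eventually.of_forall fun ω h => absurd h h1
    have hC : ∀ᵐ ω ∂μ, q * σ r ≤ 1 → ∃ C : ℝ, ∀ X : ℕ, 1 ≤ X →
        (({N : ℕ | N ≤ X ∧ ω ∈ E N}.ncard : ℕ) : ℝ) ≤ C * (X : ℝ) ^ (1 - q * σ r + 2 * η) := by
      by_cases h1 : q * σ r ≤ 1
      · filter_upwards [hCNT Ω μ E (1 - q * σ r + 2 * η) (q * σ r - η) hE1 (by linarith) (by linarith)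
          hE2] with ω hω _
        exact hω
      · exact Eventually.of_forall fun ω h => absurd h h1
    filter_upwards [hE3, hBC, hC] with ω w1 w2 w3 _ _
    constructor
    · intro h1
      filter_upwards [w1, w2 h1] with N g1 g2 hN hexc
      exact g2 (g1 hN hexc)
    · intro h1
      obtain ⟨C, hC⟩ := w3 h1
      obtain ⟨N₀, hN₀⟩ := eventually_atTop.1 w1
      refine ⟨max C ((N₀ : ℝ) + 1), fun X hX => ?_⟩
      have hsub : {N : ℕ | N ≤ X ∧ σ N = σ r ∧ ExcR A U q ω N} ⊆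
          (↑(Finset.range N₀) : Set ℕ) ∪ {N : ℕ | N ≤ X ∧ ω ∈ E N} := by
        rintro N ⟨n1, n2, n3⟩
        rcases Nat.lt_or_ge N N₀ with h | h
        · exact Or.inl (by simpa using h)
        · exact Or.inr ⟨n1, hN₀ N h n2 n3⟩
      have hfin : {N : ℕ | N ≤ X ∧ ω ∈ E N}.Finite :=
        (Set.finite_Iic X).subset fun N hN => hN.1
      have h2 := Set.ncard_le_ncard hsub ((Finset.finite_toSet _).union hfin)
      have h3 := Set.ncard_union_le (↑(Finset.range N₀) : Set ℕ) {N : ℕ | N ≤ X ∧ ω ∈ E N}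
      rw [Set.ncard_coe_finset, Finset.card_range] at h3
      have h4 : (({N : ℕ | N ≤ X ∧ σ N = σ r ∧ ExcR A U q ω N}.ncard : ℕ) : ℝ) ≤
          N₀ + (({N : ℕ | N ≤ X ∧ ω ∈ E N}.ncard : ℕ) : ℝ) := by exact_mod_cast h2.trans h3
      refine h4.trans (add_le_add ?_ ((hC X hX).trans ?_))
      · have := le_max_right C ((N₀ : ℝ) + 1)
        linarith
      · exact mul_le_mul_of_nonneg_right (le_max_left _ _) (Real.rpow_nonneg (Nat.cast_nonneg _) _)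
  filter_upwards [hfam] with ω hω r hr κ hκ
  constructor
  · intro h1
    -- a rational `q < κ` with `q σ > 1`
    have h2 : 1 / σ r < κ := by
      rw [div_lt_iff₀ hr]
      exact h1
    obtain ⟨q, hq1, hq2⟩ := exists_rat_btwn h2
    have hq0 : (0 : ℝ) ≤ q := le_trans (by positivity) hq1.le
    have hq3 : 1 < q * σ r := by
      rw [div_lt_iff₀ hr] at hq1
      exact hq1
    obtain ⟨n, hn⟩ := exists_nat_one_div_lt (show 0 < q * σ r - 1 by linarith)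
    filter_upwards [(hω r q n hr hq0).1 (by linarith)] with N hN h3 h4
    exact hN h3 (ExcR_mono hq2.le h4)
  · intro h1 ε hε
    -- a rational `q ≤ κ` with `(κ - q) σ ≤ ε / 4`
    have hq : ∃ q : ℚ, (0 : ℝ) ≤ q ∧ (q : ℝ) ≤ κ ∧ (κ - q) * σ r ≤ ε / 4 := by
      rcases hκ.lt_or_eq with h2 | h2
      · have h3 : max 0 (κ - ε / (4 * σ r)) < κ := by
          have : 0 < ε / (4 * σ r) := by positivity
          exact max_lt h2 (by linarith)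
        obtain ⟨q, hq1, hq2⟩ := exists_rat_btwn h3
        refine ⟨q, (le_max_left _ _).trans hq1.le, hq2.le, ?_⟩
        have h4 : κ - ε / (4 * σ r) ≤ q := (le_max_right _ _).trans hq1.le
        calc (κ - q) * σ r ≤ (ε / (4 * σ r)) * σ r :=
              mul_le_mul_of_nonneg_right (by linarith) hr.le
          _ = ε / 4 := by field_simp
      · refine ⟨0, by simp, by rw [← h2]; simp, ?_⟩
        rw [← h2]
        simp
        positivity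
    obtain ⟨q, hq0, hq1, hq2⟩ := hq
    obtain ⟨n, hn⟩ := exists_nat_one_div_lt (show 0 < ε / 8 by linarith)
    have hqσ : q * σ r ≤ κ * σ r := mul_le_mul_of_nonneg_right hq1 hr.le
    obtain ⟨C, hC⟩ := (hω r q n hr hq0).2 (hqσ.trans h1)
    have hab : 1 - q * σ r + 2 * (1 / ((n : ℝ) + 1)) < 1 - κ * σ r + ε := by nlinarith
    filter_upwards [pow_beats (C := C) (show 0 < 1 - κ * σ r + ε by linarith) hab, eventually_ge_atTop 1]
      with X hX1 hX2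
    refine le_trans ?_ ((hC X hX2).trans hX1)
    have hsub : {N : ℕ | N ≤ X ∧ σ N = σ r ∧ ExcR A U κ ω N} ⊆
        {N : ℕ | N ≤ X ∧ σ N = σ r ∧ ExcR A U q ω N} := by
      rintro N ⟨n1, n2, n3⟩
      exact ⟨n1, n2, ExcR_mono hq1 n3⟩
    exact_mod_cast Set.ncard_le_ncard hsub ((Set.finite_Iic X).subset fun N hN => hN.1)

theorem lower_ae (hALOW : S_ALOW) (hA : ∀ n, MeasurableSet[ℱ n] (A n))
    (hU : ∀ n, MeasurableSet[ℱ n] (U n)) (hW : 0 < W)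
    (hσ : ∀ N N' : ℕ, N % W = N' % W → σ N = σ N')
    (hd : ∀ᵐ ω ∂μ, ∀ ε : ℝ, 0 < ε → ∀ᶠ n : ℕ in atTop,
      |dens μ ℱ A n ω - rhoW W (n + 1)| ≤ ε * rhoW W (n + 1))
    (hlaw : ∀ᵐ ω ∂μ, Law U W σ ω) :
    ∀ᵐ ω ∂μ, ∀ r : ℕ, 0 < σ r → ∀ κ : ℝ, 0 ≤ κ → κ * σ r < 1 → ∀ ε : ℝ, 0 < ε →
      ∀ᶠ Y : ℕ in atTop, ∃ N : ℕ, Y < N ∧ (N : ℝ) ≤ Y + (Y : ℝ) ^ (κ * σ r + ε) ∧
        N % W = r % W ∧ ∀ t, 1 ≤ t → 3 * t ≤ N → ω ∈ U t → rk U ω t ≤ κ * Real.log N ^ 2 →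
          ω ∉ A (N - t) := by
  have hfam : ∀ᵐ ω ∂μ, ∀ r : ℕ, ∀ q : ℚ, ∀ n : ℕ, 0 < σ r → (0 : ℝ) ≤ q →
      q * σ r + 1 / ((n : ℝ) + 1) ≤ 1 → ∀ᶠ Y : ℕ in atTop, ∃ N : ℕ, Y < N ∧
        (N : ℝ) ≤ Y + (Y : ℝ) ^ (q * σ r + 1 / ((n : ℝ) + 1)) ∧
        N % W = r % W ∧ ∀ t, 1 ≤ t → 3 * t ≤ N → ω ∈ U t → rk U ω t ≤ q * Real.log N ^ 2 →
          ω ∉ A (N - t) := by
    refine ae_all_iff.2 fun r => ae_all_iff.2 fun q => ae_all_iff.2 fun n => ?_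
    by_cases hr : 0 < σ r
    swap
    · exact Eventually.of_forall fun ω h => absurd h hr
    by_cases hq : (0 : ℝ) ≤ q
    swap
    · exact Eventually.of_forall fun ω _ h => absurd h hq
    by_cases h1 : q * σ r + 1 / ((n : ℝ) + 1) ≤ 1
    swap
    · exact Eventually.of_forall fun ω _ _ h => absurd h h1
    filter_upwards [hALOW Ω μ ℱ A U W σ hA hU hW hσ hd hlaw r q (1 / ((n : ℝ) + 1)) hr.le hq
      (by positivity) h1] with ω hω _ _ _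
    exact hω
  filter_upwards [hfam] with ω hω r hr κ hκ h1 ε hε
  set ε₀ : ℝ := min ε (1 - κ * σ r) with hε₀
  have hε₀0 : 0 < ε₀ := lt_min hε (by linarith)
  have h2 : κ < κ + ε₀ / (2 * σ r) := by
    have : 0 < ε₀ / (2 * σ r) := by positivity
    linarith
  obtain ⟨q, hq1, hq2⟩ := exists_rat_btwn h2
  obtain ⟨n, hn⟩ := exists_nat_one_div_lt (show 0 < ε₀ / 2 by linarith)
  have h3 : q * σ r ≤ κ * σ r + ε₀ / 2 := by
    calc q * σ r ≤ (κ + ε₀ / (2 * σ r)) * σ r := mul_le_mul_of_nonneg_right hq2.le hr.le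
      _ = κ * σ r + ε₀ / 2 := by field_simp
  have h4 : ε₀ ≤ ε := min_le_left _ _
  have h5 : ε₀ ≤ 1 - κ * σ r := min_le_right _ _
  have h6 := hω r q n hr (hκ.trans hq1.le) (by linarith)
  filter_upwards [h6, eventually_ge_atTop 1] with Y hY hY1
  obtain ⟨N, n1, n2, n3, n4⟩ := hY
  have hY' : (1 : ℝ) ≤ Y := by exact_mod_cast hY1
  refine ⟨N, n1, n2.trans ?_, n3, fun t t1 t2 t3 t4 => n4 t t1 t2 t3 (t4.trans ?_)⟩
  · have := Real.rpow_le_rpow_of_exponent_le hY' (show q * σ r + 1 / ((n : ℝ) + 1) ≤ κ * σ r + ε by linarith)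
    linarith
  · exact mul_le_mul_of_nonneg_right hq1.le (sq_nonneg _)

end

end Pool.Agent.H95.PI
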