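import Pool.Agent.H95.PI.Asm

/-!
# Team PI: from ranks to sizes
-/

set_option autoImplicit false
set_option linter.unusedVariables false

open MeasureTheory Filter Set
open scoped ENNReal Topology

namespace Pool.Agent.H95.PI

open Pool.Agent.R528.RM Pool.Agent.N9.AD

section

variable {Ω : Type} {A U : ℕ → Set Ω} {W : ℕ} {σ : ℕ → ℝ}

/-- the size bound -/
noncomputable def sz (κ : ℝ) (m N : ℕ) : ℝ := κ * (Real.log N ^ 2 * Real.log (Real.log N) ^ m)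

/-- `N` is exceptional by size: no element `t ≤ sz κ m N`, `2 t < N`, of `U` with `N - t` in `A` -/
def ExcS (A U : ℕ → Set Ω) (κ : ℝ) (m : ℕ) (ω : Ω) (N : ℕ) : Prop :=
  ∀ t : ℕ, 1 ≤ t → (t : ℝ) ≤ sz κ m N → 2 * t < N → ω ∈ U t → ω ∉ A (N - t)

theorem size_upper (hSIZE : S_SIZE) {ω : Ω} {m : ℕ}
    (hrk : Tendsto (fun x : ℕ => rk U ω x * Real.log x ^ m / x) atTop (𝓝 1)) {s : ℝ} (hs : 0 < s)
    (h1 : ∀ κ : ℝ, 0 ≤ κ → (1 < κ * s → ∀ᶠ N : ℕ in atTop, σ N = s → ¬ ExcR A U κ ω N) ∧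
      (κ * s ≤ 1 → ∀ ε : ℝ, 0 < ε → ∀ᶠ X : ℕ in atTop,
        (({N : ℕ | N ≤ X ∧ σ N = s ∧ ExcR A U κ ω N}.ncard : ℕ) : ℝ) ≤ (X : ℝ) ^ (1 - κ * s + ε)))
    {κ : ℝ} (hκ : 0 < κ) :
    (1 < κ * s / 2 ^ m → ∀ᶠ N : ℕ in atTop, σ N = s → ¬ ExcS A U κ m ω N) ∧
    (κ * s / 2 ^ m ≤ 1 → ∀ ε : ℝ, 0 < ε → ∀ᶠ X : ℕ in atTop,
      (({N : ℕ | N ≤ X ∧ σ N = s ∧ ExcS A U κ m ω N}.ncard : ℕ) : ℝ) ≤
        (X : ℝ) ^ (1 - κ * s / 2 ^ m + ε)) := by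
  have h2m : (0 : ℝ) < 2 ^ m := by positivity
  set κ₀ : ℝ := κ / 2 ^ m with hκ₀
  have hκ₀0 : 0 < κ₀ := by positivity
  have hκ₀' : κ₀ * 2 ^ m = κ := by rw [hκ₀]; field_simp
  have hκs : κ * s / 2 ^ m = κ₀ * s := by rw [hκ₀]; ring
  rw [hκs]
  -- exceptional by size implies exceptional by rank
  have hexc : ∀ a : ℝ, 0 < a → a < κ₀ → ∀ᶠ N : ℕ in atTop, ExcS A U κ m ω N → ExcR A U a ω N := by
    intro a ha hab
    filter_upwards [hSIZE (rk U ω) (rk_mono U ω) m hrk a κ₀ ha hab] with N hN hexc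
    obtain ⟨_, x, x1, x2, x3⟩ := hN
    refine ⟨x, x1, x3, fun t t1 t2 t3 => hexc t t1 ?_ (by omega) t3⟩
    have h3 : (t : ℝ) ≤ x := by exact_mod_cast t2
    rw [hκ₀'] at x2
    exact h3.trans x2
  constructor
  · intro h3
    have h4 : 1 / s < κ₀ := by
      rw [div_lt_iff₀ hs]
      exact h3
    obtain ⟨a, ha1, ha2⟩ := exists_between h4
    have ha0 : 0 < a := lt_trans (by positivity) ha1
    have ha3 : 1 < a * s := by
      rw [div_lt_iff₀ hs] at ha1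
      exact ha1
    filter_upwards [(h1 a ha0.le).1 ha3, hexc a ha0 ha2] with N g1 g2 hN h5
    exact g1 hN (g2 h5)
  · intro h3 ε hε
    have h4 : max 0 (κ₀ - ε / (2 * s)) < κ₀ := by
      have : 0 < ε / (2 * s) := by positivity
      exact max_lt hκ₀0 (by linarith)
    obtain ⟨a, ha1, ha2⟩ := exists_between h4
    have ha0 : 0 < a := (le_max_left _ _).trans_lt ha1
    have ha3 : κ₀ - ε / (2 * s) < a := (le_max_right _ _).trans_lt ha1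
    have ha4 : κ₀ * s - ε / 2 ≤ a * s := by
      have := mul_le_mul_of_nonneg_right ha3.le hs.le
      refine le_trans (le_of_eq ?_) this
      field_simp
    have ha5 : a * s ≤ 1 := (mul_le_mul_of_nonneg_right ha2.le hs.le).trans h3
    obtain ⟨N₀, hN₀⟩ := eventually_atTop.1 (hexc a ha0 ha2)
    filter_upwards [(h1 a ha0.le).2 ha5 (ε / 4) (by positivity),
      pow_beats (C := (N₀ : ℝ) + 1) (show 0 < 1 - κ₀ * s + ε by linarith)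
        (show 1 - a * s + ε / 4 < 1 - κ₀ * s + ε by linarith), eventually_ge_atTop 1] with X g1 g2 g3
    refine le_trans ?_ g2
    have hsub : {N : ℕ | N ≤ X ∧ σ N = s ∧ ExcS A U κ m ω N} ⊆
        (↑(Finset.range N₀) : Set ℕ) ∪ {N : ℕ | N ≤ X ∧ σ N = s ∧ ExcR A U a ω N} := by
      rintro N ⟨n1, n2, n3⟩
      rcases Nat.lt_or_ge N N₀ with h | h
      · exact Or.inl (by simpa using h)
      · exact Or.inr ⟨n1, n2, hN₀ N h n3⟩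
    have hfin : {N : ℕ | N ≤ X ∧ σ N = s ∧ ExcR A U a ω N}.Finite :=
      (Set.finite_Iic X).subset fun N hN => hN.1
    have k2 := Set.ncard_le_ncard hsub ((Finset.finite_toSet _).union hfin)
    have k3 := Set.ncard_union_le (↑(Finset.range N₀) : Set ℕ) {N : ℕ | N ≤ X ∧ σ N = s ∧ ExcR A U a ω N}
    rw [Set.ncard_coe_finset, Finset.card_range] at k3
    have k4 : (({N : ℕ | N ≤ X ∧ σ N = s ∧ ExcS A U κ m ω N}.ncard : ℕ) : ℝ) ≤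
        N₀ + (({N : ℕ | N ≤ X ∧ σ N = s ∧ ExcR A U a ω N}.ncard : ℕ) : ℝ) := by exact_mod_cast k2.trans k3
    have k5 : (0 : ℝ) ≤ (X : ℝ) ^ (1 - a * s + ε / 4) := Real.rpow_nonneg (Nat.cast_nonneg _) _
    have k6 : (0 : ℝ) ≤ N₀ := Nat.cast_nonneg _
    nlinarith

theorem size_lower (hSIZE : S_SIZE) {ω : Ω} {m : ℕ}
    (hrk : Tendsto (fun x : ℕ => rk U ω x * Real.log x ^ m / x) atTop (𝓝 1)) {r : ℕ} (hs : 0 < σ r)
    (h1 : ∀ κ : ℝ, 0 ≤ κ → κ * σ r < 1 → ∀ ε : ℝ, 0 < ε →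
      ∀ᶠ Y : ℕ in atTop, ∃ N : ℕ, Y < N ∧ (N : ℝ) ≤ Y + (Y : ℝ) ^ (κ * σ r + ε) ∧
        N % W = r % W ∧ ∀ t, 1 ≤ t → 3 * t ≤ N → ω ∈ U t → rk U ω t ≤ κ * Real.log N ^ 2 →
          ω ∉ A (N - t))
    {κ : ℝ} (hκ : 0 < κ) (h2 : κ * σ r / 2 ^ m < 1) {ε : ℝ} (hε : 0 < ε) :
    ∀ᶠ Y : ℕ in atTop, ∃ N : ℕ, Y < N ∧ (N : ℝ) ≤ Y + (Y : ℝ) ^ (κ * σ r / 2 ^ m + ε) ∧
      N % W = r % W ∧ ∀ t : ℕ, 1 ≤ t → (t : ℝ) ≤ sz κ m N → 3 * t ≤ N ∧ (ω ∈ U t → ω ∉ A (N - t)) := by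
  have h2m : (0 : ℝ) < 2 ^ m := by positivity
  set κ₀ : ℝ := κ / 2 ^ m with hκ₀
  have hκ₀0 : 0 < κ₀ := by positivity
  have hκ₀' : κ₀ * 2 ^ m = κ := by rw [hκ₀]; field_simp
  have hκs : κ * σ r / 2 ^ m = κ₀ * σ r := by rw [hκ₀]; ring
  rw [hκs] at h2 ⊢
  set ε₀ : ℝ := min ε (1 - κ₀ * σ r) with hε₀
  have hε₀0 : 0 < ε₀ := lt_min hε (by linarith)
  have h3 : κ₀ < κ₀ + ε₀ / (2 * σ r) := by
    have : 0 < ε₀ / (2 * σ r) := by positivity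
    linarith
  obtain ⟨b, hb1, hb2⟩ := exists_between h3
  have hb3 : b * σ r < κ₀ * σ r + ε₀ / 2 := by
    have := mul_lt_mul_of_pos_right hb2 hs
    refine this.trans_le (le_of_eq ?_)
    field_simp
  have h4 : ε₀ ≤ ε := min_le_left _ _
  have h5 : ε₀ ≤ 1 - κ₀ * σ r := min_le_right _ _
  have h6 := hSIZE (rk U ω) (rk_mono U ω) m hrk κ₀ b hκ₀0 hb1
  obtain ⟨N₀, hN₀⟩ := eventually_atTop.1 h6
  filter_upwards [h1 b (hκ₀0.le.trans hb1.le) (by linarith) (ε₀ / 2) (by linarith), eventually_ge_atTop N₀,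
    eventually_ge_atTop 1] with Y ⟨N, n1, n2, n3, n4⟩ g2 g3
  have hY' : (1 : ℝ) ≤ Y := by exact_mod_cast g3
  refine ⟨N, n1, n2.trans ?_, n3, fun t t1 t2 => ?_⟩
  · have := Real.rpow_le_rpow_of_exponent_le hY' (show b * σ r + ε₀ / 2 ≤ κ₀ * σ r + ε by linarith)
    linarith
  · have h7 := (hN₀ N (by omega)).1 t (by
      rw [hκ₀']
      exact t2)
    exact ⟨h7.1, fun t3 => n4 t t1 h7.1 t3 h7.2⟩

end

end Pool.Agent.H95.PI
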