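import Mathlib
import Pool.Agent.H95.P.N9_AD_Model

/-!
# Team PI: the least summand with index in an adapted set, in sieved sequential random models

The random set `A` is adapted to `ℱ`; the conditional probability of `A (n + 1)` given `ℱ n` is close
to `rhoW W (n + 1)` (this is `min 1 ((W / φ(W)) / log (n + 1))` if `n + 1` is coprime to `W`, else `0`).
`U` is an adapted set (later: `U = Us A T`, the chosen integers with index in the adapted set `T`).
-/

set_option autoImplicit false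
set_option linter.unusedSectionVars false

open MeasureTheory Filter Set
open scoped ENNReal Topology

namespace Pool.Agent.H95.PI

open Pool.Agent.R528.RM Pool.Agent.N9.AD

section

variable {Ω : Type}

/-- the number of the elements of `U` in `[1, x]` (the rank of `x`) -/
noncomputable def rk (U : ℕ → Set Ω) (ω : Ω) (x : ℕ) : ℝ := ∑ s ∈ Finset.Icc 1 x, In U s ω

/-- the elements of `U` of rank at most `K` -/
def Cut (U : ℕ → Set Ω) (K : ℝ) (s : ℕ) : Set Ω := {ω | ω ∈ U s ∧ rk U ω s ≤ K}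

/-- the sum of the profile over the positions `N - s`, `s ∈ U`, `s ≤ x` -/
noncomputable def VU (U : ℕ → Set Ω) (W N x : ℕ) (ω : Ω) : ℝ :=
  ∑ s ∈ Finset.Icc 1 x, In U s ω * rhoW W (N - s)

/-- the law of these sums at `ω` -/
def Law (U : ℕ → Set Ω) (W : ℕ) (σ : ℕ → ℝ) (ω : Ω) : Prop :=
  ∀ ε : ℝ, 0 < ε → ∃ C : ℝ, 0 < C ∧ ∀ᶠ N : ℕ in atTop, ∀ x : ℕ, 2 * x < N →
    |VU U W N x ω - σ N * rk U ω x / Real.log N| ≤ ε * (rk U ω x / Real.log N) + C

/-- `N` is not a sum of an element `s ≤ x` of `U` and an element of `A` -/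
def Avoid (A U : ℕ → Set Ω) (N x : ℕ) : Set Ω := {ω | ∀ s, 1 ≤ s → s ≤ x → ω ∈ U s → ω ∉ A (N - s)}

/-- the conditional probability of `A (n + 1)` is not within the factor `1 ± δ` of the profile -/
def VX [m0 : MeasurableSpace Ω] (μ : Measure Ω) (ℱ : Filtration ℕ m0) (A : ℕ → Set Ω) (W : ℕ) (δ : ℝ)
    (n : ℕ) : Set Ω :=
  {ω | ¬ |dens μ ℱ A n ω - rhoW W (n + 1)| ≤ δ * rhoW W (n + 1)}

lemma rk_mono (U : ℕ → Set Ω) (ω : Ω) : Monotone (rk U ω) := by
  intro a b hab
  unfold rk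
  refine Finset.sum_le_sum_of_subset_of_nonneg (Finset.Icc_subset_Icc le_rfl hab) ?_
  exact fun s _ _ => In_nonneg _ _

lemma rk_nonneg (U : ℕ → Set Ω) (ω : Ω) (x : ℕ) : 0 ≤ rk U ω x :=
  Finset.sum_nonneg fun s _ => In_nonneg _ _

lemma rk_zero (U : ℕ → Set Ω) (ω : Ω) : rk U ω 0 = 0 := by
  unfold rk
  simp

lemma rk_succ (U : ℕ → Set Ω) (ω : Ω) (x : ℕ) : rk U ω (x + 1) = rk U ω x + In U (x + 1) ω := by
  unfold rk
  rw [Finset.sum_Icc_succ_top (by omega)]

end

section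

variable {Ω : Type} {m0 : MeasurableSpace Ω} {μ : Measure Ω} [IsProbabilityMeasure μ]
  {ℱ : Filtration ℕ m0} {A U : ℕ → Set Ω}

lemma VX_meas (W : ℕ) (δ : ℝ) (n : ℕ) : MeasurableSet[ℱ n] (VX μ ℱ A W δ n) := by
  have h1 : MeasurableSet {x : ℝ | ¬ |x - rhoW W (n + 1)| ≤ δ * rhoW W (n + 1)} := by
    have h2 : Measurable (fun x : ℝ => |x - rhoW W (n + 1)|) := by fun_prop
    exact (h2 measurableSet_Iic).compl
  exact (dens_meas n).measurable h1

lemma rk_meas (hU : ∀ n, MeasurableSet[ℱ n] (U n)) (x : ℕ) : Measurable[ℱ x] (fun ω => rk U ω x) := by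
  unfold rk
  apply Finset.measurable_sum
  intro s hs
  exact (In_meas hU (Finset.mem_Icc.1 hs).2).measurable

lemma Cut_meas (hU : ∀ n, MeasurableSet[ℱ n] (U n)) (K : ℝ) (n : ℕ) :
    MeasurableSet[ℱ n] (Cut U K n) :=
  (hU n).inter (rk_meas hU n measurableSet_Iic)

end

end Pool.Agent.H95.PI
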