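import Pool.Agent.H95.PI.Final0
import Pool.Agent.H95.PI.T.ALOW
import Pool.Agent.H95.PI.T.AUP
import Pool.Agent.H95.PI.T.CNT
import Pool.Agent.H95.PI.T.CRK
import Pool.Agent.H95.PI.T.CUT
import Pool.Agent.H95.PI.T.GRD
import Pool.Agent.H95.PI.T.HIT
import Pool.Agent.H95.PI.T.MISS
import Pool.Agent.H95.PI.T.PLOW
import Pool.Agent.H95.PI.T.PUP
import Pool.Agent.H95.PI.T.SIZE
import Pool.Agent.H95.PI.T.VLAW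

/-!
# Team PI: the theorems for the models
-/

set_option autoImplicit false
set_option linter.unusedVariables false

open MeasureTheory Filter Set
open scoped ENNReal Topology

namespace Pool.Agent.H95.PI

open Pool.Agent.R528.RM Pool.Agent.N9.AD

theorem all : All where
  aup := T.AUP.main T.CUT.main (T.PUP.main T.MISS.main)
  alow := T.ALOW.main (T.PLOW.main T.HIT.main T.GRD.main) T.CUT.main T.CRK.main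
  cnt := T.CNT.main
  vlaw := T.VLAW.main
  size := T.SIZE.main

section

variable {Ω : Type} [m0 : MeasurableSpace Ω] {μ : Measure Ω} [IsProbabilityMeasure μ]
  {ℱ : Filtration ℕ m0} {A T : ℕ → Set Ω} {Q : Finset ℕ}

theorem adapted_upper (hA : ∀ n, MeasurableSet[ℱ n] (A n)) (hT : ∀ n, MeasurableSet[ℱ n] (T n))
    (hQ : ∀ p ∈ Q, p.Prime) (hcop : ∀ n, (∃ p ∈ Q, p ∣ n) → A n = ∅)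
    (hd : ∀ᵐ ω ∂μ, Tendsto (fun n : ℕ => dens μ ℱ A n ω * Real.log n)
      (atTop ⊓ 𝓟 {n : ℕ | ∀ p ∈ Q, ¬ p ∣ n + 1}) (𝓝 (∏ p ∈ Q, (1 - 1 / (p : ℝ))⁻¹))) :
    ∀ᵐ ω ∂μ, ∀ r : ℕ, 0 < singQ Q r → ∀ κ : ℝ, 0 ≤ κ →
      (1 < κ * singQ Q r → ∀ᶠ N : ℕ in atTop, singQ Q N = singQ Q r → ¬ ExcR A (Us A T) κ ω N) ∧
      (κ * singQ Q r ≤ 1 → ∀ ε : ℝ, 0 < ε → ∀ᶠ X : ℕ in atTop,
        (({N : ℕ | N ≤ X ∧ singQ Q N = singQ Q r ∧ ExcR A (Us A T) κ ω N}.ncard : ℕ) : ℝ) ≤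
          (X : ℝ) ^ (1 - κ * singQ Q r + ε)) :=
  adapted_upper0 (μ := μ) all hA hT hQ hcop hd

theorem adapted_lower (hA : ∀ n, MeasurableSet[ℱ n] (A n)) (hT : ∀ n, MeasurableSet[ℱ n] (T n))
    (hQ : ∀ p ∈ Q, p.Prime) (hcop : ∀ n, (∃ p ∈ Q, p ∣ n) → A n = ∅)
    (hd : ∀ᵐ ω ∂μ, Tendsto (fun n : ℕ => dens μ ℱ A n ω * Real.log n)
      (atTop ⊓ 𝓟 {n : ℕ | ∀ p ∈ Q, ¬ p ∣ n + 1}) (𝓝 (∏ p ∈ Q, (1 - 1 / (p : ℝ))⁻¹))) :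
    ∀ᵐ ω ∂μ, ∀ r : ℕ, 0 < singQ Q r → ∀ κ : ℝ, 0 ≤ κ → κ * singQ Q r < 1 → ∀ ε : ℝ, 0 < ε →
      ∀ᶠ Y : ℕ in atTop, ∃ N : ℕ, Y < N ∧ (N : ℝ) ≤ Y + (Y : ℝ) ^ (κ * singQ Q r + ε) ∧
        N % (∏ p ∈ Q, p) = r % (∏ p ∈ Q, p) ∧ ∀ t, 1 ≤ t → 3 * t ≤ N → ω ∈ Us A T t →
          rk (Us A T) ω t ≤ κ * Real.log N ^ 2 → ω ∉ A (N - t) :=
  adapted_lower0 (μ := μ) all hA hT hQ hcop hd

theorem order_upper (hA : ∀ n, MeasurableSet[ℱ n] (A n))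
    (hQ : ∀ p ∈ Q, p.Prime) (hcop : ∀ n, (∃ p ∈ Q, p ∣ n) → A n = ∅)
    (hd : ∀ᵐ ω ∂μ, Tendsto (fun n : ℕ => dens μ ℱ A n ω * Real.log n)
      (atTop ⊓ 𝓟 {n : ℕ | ∀ p ∈ Q, ¬ p ∣ n + 1}) (𝓝 (∏ p ∈ Q, (1 - 1 / (p : ℝ))⁻¹))) :
    ∀ᵐ ω ∂μ, ∀ j r : ℕ, 0 < singQ Q r → ∀ κ : ℝ, 0 < κ →
      (1 < κ * singQ Q r / 2 ^ (j + 1) → ∀ᶠ N : ℕ in atTop, singQ Q N = singQ Q r →
        ¬ ExcS A (Ch A j) κ (j + 1) ω N) ∧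
      (κ * singQ Q r / 2 ^ (j + 1) ≤ 1 → ∀ ε : ℝ, 0 < ε → ∀ᶠ X : ℕ in atTop,
        (({N : ℕ | N ≤ X ∧ singQ Q N = singQ Q r ∧ ExcS A (Ch A j) κ (j + 1) ω N}.ncard : ℕ) : ℝ) ≤
          (X : ℝ) ^ (1 - κ * singQ Q r / 2 ^ (j + 1) + ε)) :=
  order_upper0 (μ := μ) all hA hQ hcop hd

theorem order_lower (hA : ∀ n, MeasurableSet[ℱ n] (A n))
    (hQ : ∀ p ∈ Q, p.Prime) (hcop : ∀ n, (∃ p ∈ Q, p ∣ n) → A n = ∅)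
    (hd : ∀ᵐ ω ∂μ, Tendsto (fun n : ℕ => dens μ ℱ A n ω * Real.log n)
      (atTop ⊓ 𝓟 {n : ℕ | ∀ p ∈ Q, ¬ p ∣ n + 1}) (𝓝 (∏ p ∈ Q, (1 - 1 / (p : ℝ))⁻¹))) :
    ∀ᵐ ω ∂μ, ∀ j r : ℕ, 0 < singQ Q r → ∀ κ : ℝ, 0 < κ → κ * singQ Q r / 2 ^ (j + 1) < 1 →
      ∀ ε : ℝ, 0 < ε → ∀ᶠ Y : ℕ in atTop, ∃ N : ℕ, Y < N ∧
        (N : ℝ) ≤ Y + (Y : ℝ) ^ (κ * singQ Q r / 2 ^ (j + 1) + ε) ∧
        N % (∏ p ∈ Q, p) = r % (∏ p ∈ Q, p) ∧ ∀ t : ℕ, 1 ≤ t → (t : ℝ) ≤ sz κ (j + 1) N →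
          3 * t ≤ N ∧ (ω ∈ Ch A j t → ω ∉ A (N - t)) :=
  order_lower0 (μ := μ) all hA hQ hcop hd

end

end Pool.Agent.H95.PI
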