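import Pool.Agent.H95.PI.Asm2

/-!
# Team PI: the theorems for the models, from the statements
-/

set_option autoImplicit false
set_option linter.unusedVariables false

open MeasureTheory Filter Set
open scoped ENNReal Topology

namespace Pool.Agent.H95.PI

open Pool.Agent.R528.RM Pool.Agent.N9.AD

/-- all the statements -/
structure All : Prop where
  aup : S_AUP
  alow : S_ALOW
  cnt : S_CNT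
  vlaw : S_VLAW
  size : S_SIZE

section

variable {Ω : Type} [m0 : MeasurableSpace Ω] {μ : Measure Ω} [IsProbabilityMeasure μ]
  {ℱ : Filtration ℕ m0} {A T : ℕ → Set Ω} {Q : Finset ℕ}

lemma singQ_mod (Q : Finset ℕ) (N N' : ℕ) (h : N % (∏ p ∈ Q, p) = N' % (∏ p ∈ Q, p)) :
    singQ Q N = singQ Q N' := by
  unfold singQ
  refine Finset.prod_congr rfl fun p hp => ?_
  have h1 : p ∣ ∏ p ∈ Q, p := Finset.dvd_prod_of_mem _ hp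
  have h2 : p ∣ N ↔ p ∣ N' := (Nat.ModEq.dvd_iff (show N ≡ N' [MOD ∏ p ∈ Q, p] from h) h1)
  simp only [h2]

theorem adapted_upper0 (H : All) (hA : ∀ n, MeasurableSet[ℱ n] (A n)) (hT : ∀ n, MeasurableSet[ℱ n] (T n))
    (hQ : ∀ p ∈ Q, p.Prime) (hcop : ∀ n, (∃ p ∈ Q, p ∣ n) → A n = ∅)
    (hd : ∀ᵐ ω ∂μ, Tendsto (fun n : ℕ => dens μ ℱ A n ω * Real.log n)
      (atTop ⊓ 𝓟 {n : ℕ | ∀ p ∈ Q, ¬ p ∣ n + 1}) (𝓝 (∏ p ∈ Q, (1 - 1 / (p : ℝ))⁻¹))) :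
    ∀ᵐ ω ∂μ, ∀ r : ℕ, 0 < singQ Q r → ∀ κ : ℝ, 0 ≤ κ →
      (1 < κ * singQ Q r → ∀ᶠ N : ℕ in atTop, singQ Q N = singQ Q r → ¬ ExcR A (Us A T) κ ω N) ∧
      (κ * singQ Q r ≤ 1 → ∀ ε : ℝ, 0 < ε → ∀ᶠ X : ℕ in atTop,
        (({N : ℕ | N ≤ X ∧ singQ Q N = singQ Q r ∧ ExcR A (Us A T) κ ω N}.ncard : ℕ) : ℝ) ≤
          (X : ℝ) ^ (1 - κ * singQ Q r + ε)) :=
  upper_ae (W := ∏ p ∈ Q, p) H.aup H.cnt hA (Us_meas hA hT)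
    (Pool.Agent.N893.SM.profile (μ := μ) hA Q hQ hcop hd) (H.vlaw Ω μ ℱ A T Q hA hT hQ hcop hd)

theorem adapted_lower0 (H : All) (hA : ∀ n, MeasurableSet[ℱ n] (A n)) (hT : ∀ n, MeasurableSet[ℱ n] (T n))
    (hQ : ∀ p ∈ Q, p.Prime) (hcop : ∀ n, (∃ p ∈ Q, p ∣ n) → A n = ∅)
    (hd : ∀ᵐ ω ∂μ, Tendsto (fun n : ℕ => dens μ ℱ A n ω * Real.log n)
      (atTop ⊓ 𝓟 {n : ℕ | ∀ p ∈ Q, ¬ p ∣ n + 1}) (𝓝 (∏ p ∈ Q, (1 - 1 / (p : ℝ))⁻¹))) :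
    ∀ᵐ ω ∂μ, ∀ r : ℕ, 0 < singQ Q r → ∀ κ : ℝ, 0 ≤ κ → κ * singQ Q r < 1 → ∀ ε : ℝ, 0 < ε →
      ∀ᶠ Y : ℕ in atTop, ∃ N : ℕ, Y < N ∧ (N : ℝ) ≤ Y + (Y : ℝ) ^ (κ * singQ Q r + ε) ∧
        N % (∏ p ∈ Q, p) = r % (∏ p ∈ Q, p) ∧ ∀ t, 1 ≤ t → 3 * t ≤ N → ω ∈ Us A T t →
          rk (Us A T) ω t ≤ κ * Real.log N ^ 2 → ω ∉ A (N - t) :=
  lower_ae H.alow hA (Us_meas hA hT) (Finset.prod_pos fun q hq => (hQ q hq).pos) (singQ_mod Q)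
    (Pool.Agent.N893.SM.profile (μ := μ) hA Q hQ hcop hd) (H.vlaw Ω μ ℱ A T Q hA hT hQ hcop hd)

/-- the index set of order `j` -/
def Tj (A : ℕ → Set Ω) : ℕ → ℕ → Set Ω
  | 0 => fun _ => univ
  | j + 1 => Ch A j

lemma Us_Tj (A : ℕ → Set Ω) (j : ℕ) : Us A (Tj A j) = Ch A j := by
  cases j with
  | zero =>
    funext n
    ext ω
    exact ⟨fun h => h.1, fun h => ⟨h, mem_univ _⟩⟩
  | succ j => rfl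

lemma Tj_meas (hA : ∀ n, MeasurableSet[ℱ n] (A n)) (j : ℕ) : ∀ n, MeasurableSet[ℱ n] (Tj A j n) := by
  cases j with
  | zero => exact fun n => @MeasurableSet.univ _ (ℱ n)
  | succ j => exact Ch_meas hA j

theorem order_upper0 (H : All) (hA : ∀ n, MeasurableSet[ℱ n] (A n))
    (hQ : ∀ p ∈ Q, p.Prime) (hcop : ∀ n, (∃ p ∈ Q, p ∣ n) → A n = ∅)
    (hd : ∀ᵐ ω ∂μ, Tendsto (fun n : ℕ => dens μ ℱ A n ω * Real.log n)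
      (atTop ⊓ 𝓟 {n : ℕ | ∀ p ∈ Q, ¬ p ∣ n + 1}) (𝓝 (∏ p ∈ Q, (1 - 1 / (p : ℝ))⁻¹))) :
    ∀ᵐ ω ∂μ, ∀ j r : ℕ, 0 < singQ Q r → ∀ κ : ℝ, 0 < κ →
      (1 < κ * singQ Q r / 2 ^ (j + 1) → ∀ᶠ N : ℕ in atTop, singQ Q N = singQ Q r →
        ¬ ExcS A (Ch A j) κ (j + 1) ω N) ∧
      (κ * singQ Q r / 2 ^ (j + 1) ≤ 1 → ∀ ε : ℝ, 0 < ε → ∀ᶠ X : ℕ in atTop,
        (({N : ℕ | N ≤ X ∧ singQ Q N = singQ Q r ∧ ExcS A (Ch A j) κ (j + 1) ω N}.ncard : ℕ) : ℝ) ≤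
          (X : ℝ) ^ (1 - κ * singQ Q r / 2 ^ (j + 1) + ε)) := by
  have h1 : ∀ᵐ ω ∂μ, ∀ j r : ℕ, 0 < singQ Q r → ∀ κ : ℝ, 0 ≤ κ →
      (1 < κ * singQ Q r → ∀ᶠ N : ℕ in atTop, singQ Q N = singQ Q r → ¬ ExcR A (Ch A j) κ ω N) ∧
      (κ * singQ Q r ≤ 1 → ∀ ε : ℝ, 0 < ε → ∀ᶠ X : ℕ in atTop,
        (({N : ℕ | N ≤ X ∧ singQ Q N = singQ Q r ∧ ExcR A (Ch A j) κ ω N}.ncard : ℕ) : ℝ) ≤
          (X : ℝ) ^ (1 - κ * singQ Q r + ε)) := by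
    refine ae_all_iff.2 fun j => ?_
    have := adapted_upper0 (μ := μ) H hA (Tj_meas hA j) hQ hcop hd
    rw [Us_Tj] at this
    exact this
  filter_upwards [h1, cnt_law (μ := μ) hA Q hQ hcop hd] with ω w1 w2 j r hr κ hκ
  exact size_upper H.size (m := j + 1) (ct_law w2 j) hr (w1 j r hr) hκ

theorem order_lower0 (H : All) (hA : ∀ n, MeasurableSet[ℱ n] (A n))
    (hQ : ∀ p ∈ Q, p.Prime) (hcop : ∀ n, (∃ p ∈ Q, p ∣ n) → A n = ∅)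
    (hd : ∀ᵐ ω ∂μ, Tendsto (fun n : ℕ => dens μ ℱ A n ω * Real.log n)
      (atTop ⊓ 𝓟 {n : ℕ | ∀ p ∈ Q, ¬ p ∣ n + 1}) (𝓝 (∏ p ∈ Q, (1 - 1 / (p : ℝ))⁻¹))) :
    ∀ᵐ ω ∂μ, ∀ j r : ℕ, 0 < singQ Q r → ∀ κ : ℝ, 0 < κ → κ * singQ Q r / 2 ^ (j + 1) < 1 →
      ∀ ε : ℝ, 0 < ε → ∀ᶠ Y : ℕ in atTop, ∃ N : ℕ, Y < N ∧
        (N : ℝ) ≤ Y + (Y : ℝ) ^ (κ * singQ Q r / 2 ^ (j + 1) + ε) ∧
        N % (∏ p ∈ Q, p) = r % (∏ p ∈ Q, p) ∧ ∀ t : ℕ, 1 ≤ t → (t : ℝ) ≤ sz κ (j + 1) N →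
          3 * t ≤ N ∧ (ω ∈ Ch A j t → ω ∉ A (N - t)) := by
  have h1 : ∀ᵐ ω ∂μ, ∀ j : ℕ, ∀ r : ℕ, 0 < singQ Q r → ∀ κ : ℝ, 0 ≤ κ → κ * singQ Q r < 1 →
      ∀ ε : ℝ, 0 < ε →
      ∀ᶠ Y : ℕ in atTop, ∃ N : ℕ, Y < N ∧ (N : ℝ) ≤ Y + (Y : ℝ) ^ (κ * singQ Q r + ε) ∧
        N % (∏ p ∈ Q, p) = r % (∏ p ∈ Q, p) ∧ ∀ t, 1 ≤ t → 3 * t ≤ N → ω ∈ Ch A j t →
          rk (Ch A j) ω t ≤ κ * Real.log N ^ 2 → ω ∉ A (N - t) := by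
    refine ae_all_iff.2 fun j => ?_
    have := adapted_lower0 (μ := μ) H hA (Tj_meas hA j) hQ hcop hd
    rw [Us_Tj] at this
    exact this
  filter_upwards [h1, cnt_law (μ := μ) hA Q hQ hcop hd] with ω w1 w2 j r hr κ hκ h2 ε hε
  exact size_lower H.size (m := j + 1) (ct_law w2 j) hr (w1 j r hr) hκ h2 hε

end

end Pool.Agent.H95.PI
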