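import Pool.Agent.H95.PI.Defs

/-!
# Team PI: statements

For each statement `S_X` write `Pool/Agent/H95/PI/T/X.lean` with namespace `Pool.Agent.H95.PI.T.X` and
`theorem main : S_X` (or `theorem main (h1 : S_Y) : S_X`; the dependencies may be assumed).

The event `WV (VX μ ℱ A W δ) y h` (from `R528.RM.Blocks`, lemmas `WV_succ`, `WV_zero`, `WV_meas`) is:
for some `y ≤ n < y + h` the conditional probability of `A (n + 1)` given `ℱ n` is not within the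
factor `1 ± δ` of `rhoW W (n + 1)`. `VX_meas`, `rk_meas`, `Cut_meas`, `rk_mono`, `rk_succ` are in
`Defs.lean`. `upper_meas`, `lower_meas` (in `R528.RM.Basic`) bound `μ.real (B ∩ A (k + 1))`, `B ∈ ℱ k`,
by bounds for `dens` on `B`.
-/

set_option autoImplicit false

open MeasureTheory Filter Set
open scoped ENNReal Topology

namespace Pool.Agent.H95.PI

open Pool.Agent.R528.RM Pool.Agent.N9.AD

/-- PI-HIT. The sets of positions `P i`, `i ∈ I`, are pairwise disjoint and lie in `(y, y + h]`. The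
probability that all of them are hit, without violation of the profile, is at most the product.

Proof. Induction on `h`, for all `y`, `I`, `P`, `B` (replace the hypothesis by `P i ⊆ Ioc y (y + h)`; in
the step use `P' i = (P i).filter (y + 1 < ·)`). Put `u m = (1 + δ) * rhoW W m ∈ [0, 1]`,
`F I y = ∏_{i ∈ I} (1 - ∏_{m ∈ P i, m > y} (1 - u m))`. `h = 0`: all `P i` are empty; if `I` is empty both
sides are `μ.real B`, otherwise the event is empty. Step: let `n = y + 1`, `V = VX .. y ∈ ℱ y`,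
`WV .. y (h + 1) = V ∪ WV .. (y + 1) h`. Replace `B` by `B' = B \ V`. If `n` is in no `P i`, apply the
induction hypothesis to `B'` (it is in `ℱ (y + 1)`). If `n ∈ P i₀` (unique `i₀ ∈ I`), split
`B' = (B' ∩ A n) ∪ (B' \ A n)`. On the first part `i₀` is hit: the event is contained in the event for
`I.erase i₀` and the induction hypothesis gives the bound `a * F'`, with `a = μ.real (B' ∩ A n)`,
`F'` the product over `I.erase i₀`; on the second part the induction hypothesis for `I` gives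
`(μ.real B' - a) * (1 - q) * F'`, `q = ∏_{m ∈ P i₀, m > n} (1 - u m)`. The sum is
`F' * ((1 - q) * μ.real B' + q * a)` and `a ≤ u n * μ.real B'` (`upper_meas`; on `B'` the density is
`≤ u n`), so it is `≤ F' * (1 - q * (1 - u n)) * μ.real B'`. -/
def S_HIT : Prop :=
  ∀ (Ω : Type) [m0 : MeasurableSpace Ω] (μ : Measure Ω) [IsProbabilityMeasure μ] (ℱ : Filtration ℕ m0)
    (A : ℕ → Set Ω) (W : ℕ) (δ : ℝ), (∀ n, MeasurableSet[ℱ n] (A n)) → 0 ≤ δ →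
    ∀ (h y : ℕ) (I : Finset ℕ) (P : ℕ → Finset ℕ),
      (∀ i ∈ I, ∀ j ∈ I, i ≠ j → Disjoint (P i) (P j)) →
      (∀ i ∈ I, P i ⊆ Finset.Ioc y (y + h)) →
      (∀ m, y < m → m ≤ y + h → (1 + δ) * rhoW W m ≤ 1) →
      ∀ B : Set Ω, MeasurableSet[ℱ y] B →
        μ.real ((B ∩ {ω | ∀ i ∈ I, ∃ m ∈ P i, ω ∈ A m}) \ WV (VX μ ℱ A W δ) y h) ≤
          (∏ i ∈ I, (1 - ∏ m ∈ P i, (1 - (1 + δ) * rhoW W m))) * μ.real B

/-- PI-MISS. The probability that a set `R` of positions is missed, without violation of the profile.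

Proof. Induction on `h` as in PI-HIT (easier): `n = y + 1`, `B' = B \ VX .. y`; if `n ∉ R` pass to `B'`;
if `n ∈ R` pass to `B' \ A n ∈ ℱ (y + 1)`, whose measure is `≤ (1 - (1 - δ) * rhoW W n) * μ.real B'`
(`lower_meas`), and `1 - t ≤ exp (-t)`; `R' = R.filter (n < ·)`. -/
def S_MISS : Prop :=
  ∀ (Ω : Type) [m0 : MeasurableSpace Ω] (μ : Measure Ω) [IsProbabilityMeasure μ] (ℱ : Filtration ℕ m0)
    (A : ℕ → Set Ω) (W : ℕ) (δ : ℝ), (∀ n, MeasurableSet[ℱ n] (A n)) → 0 ≤ δ → δ ≤ 1 →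
    ∀ (h y : ℕ) (R : Finset ℕ), R ⊆ Finset.Ioc y (y + h) →
      ∀ B : Set Ω, MeasurableSet[ℱ y] B →
        μ.real ((B ∩ {ω | ∀ m ∈ R, ω ∉ A m}) \ WV (VX μ ℱ A W δ) y h) ≤
          Real.exp (-((1 - δ) * ∑ m ∈ R, rhoW W m)) * μ.real B

/-- PI-GRD. Greedy choice.

Proof. Induction on `J`. Given `I` with `J` elements, the `N'` in `(Y, Y + L]` congruent to `r` are at
least `L / W` (rounded down) `≥ (J + 1) * (|S|² + 1) + 1` many, and those with `N' ∈ I` or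
`N + b = N' + a`, i.e. `N' = N + b - a`, for some `N ∈ I`, `a, b ∈ S`, are at most `J + J * |S|²`. (The
`N' = Y + 1 + i + W * j`, `i` fixed with `(Y + 1 + i) % W = r % W`, `i < W`, `W * (j + 1) ≤ L`.) -/
def S_GRD : Prop :=
  ∀ (W r : ℕ) (S : Finset ℕ) (Y L J : ℕ), 0 < W → W * (J * (S.card ^ 2 + 1) + 1) ≤ L →
    ∃ I : Finset ℕ, I.card = J ∧ (∀ N ∈ I, Y < N ∧ N ≤ Y + L ∧ N % W = r % W) ∧
      ∀ N ∈ I, ∀ N' ∈ I, N ≠ N' → ∀ a ∈ S, ∀ b ∈ S, N + b ≠ N' + a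

/-- PI-VLAW. The law of the weighted sums over the chosen integers with index in `T`.

Proof. As `main_law` in `Pool/Agent/H95/P/N9_AD_Comp.lean` (copy it): by `index_law` (with `E := 2`) the
sums `∑_{s ≤ x, s ≡ b} In (Us A T) s` are `rk / φ(W)` up to `η rk + C log N` for `b` coprime to `W`; sum
over the classes `b ∈ gcl W N`: `S = ∑_{s ≤ x, (N - s, W) = 1} In (Us A T) s` is
`(|gcl W N| / φ(W)) rk` up to `W (η rk + C log N)` (`h8` there). For `s < N / 2` and `N - s` coprime to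
`W`, `rhoW W (N - s) = bb c (N - s)`, `c = W / φ(W)`, is between `c / log N` and `(1 + η) c / log N`
(`log_half`), otherwise `rhoW W (N - s) = 0`; and `c * |gcl W N| / φ(W) = singQ Q N` (`gcl_card`). Here
`VU` replaces the sum over the chosen `N - s`, so `comp_law` is not needed. -/
def S_VLAW : Prop :=
  ∀ (Ω : Type) [m0 : MeasurableSpace Ω] (μ : Measure Ω) [IsProbabilityMeasure μ] (ℱ : Filtration ℕ m0)
    (A T : ℕ → Set Ω) (Q : Finset ℕ), (∀ n, MeasurableSet[ℱ n] (A n)) → (∀ n, MeasurableSet[ℱ n] (T n)) →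
    (∀ p ∈ Q, p.Prime) → (∀ n, (∃ p ∈ Q, p ∣ n) → A n = ∅) →
    (∀ᵐ ω ∂μ, Tendsto (fun n : ℕ => dens μ ℱ A n ω * Real.log n)
      (atTop ⊓ 𝓟 {n : ℕ | ∀ p ∈ Q, ¬ p ∣ n + 1}) (𝓝 (∏ p ∈ Q, (1 - 1 / (p : ℝ))⁻¹))) →
    ∀ᵐ ω ∂μ, Law (Us A T) (∏ p ∈ Q, p) (singQ Q) ω

/-- PI-CUT. The weighted sums over the elements of rank at most `K`.

Proof. Let `C`, `N` be as in the law for `ε`; `x`, `K` given. Let `x' ≤ x` be maximal with
`rk U ω x' ≤ K` (`rk U ω 0 = 0`). For `1 ≤ s ≤ x`: `ω ∈ Cut U K s` iff `ω ∈ U s` and `s ≤ x'` (`rk_mono`,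
and `rk U ω (x' + 1) > K` if `x' < x`). So the sum is `VU U W N x' ω`, and `2 * x' < N`; use the law for
`x'`. Upper bound: `rk x' ≤ K`. Lower bound: if `K ≤ rk x` then `rk x' ≥ K - 1` (if `x' = x` clear, else
`K < rk (x' + 1) ≤ rk x' + 1`). -/
def S_CUT : Prop :=
  ∀ (Ω : Type) (U : ℕ → Set Ω) (W : ℕ) (σ : ℕ → ℝ) (ω : Ω), Law U W σ ω → ∀ ε : ℝ, 0 < ε →
    ∃ C : ℝ, 0 < C ∧ ∀ᶠ N : ℕ in atTop, ∀ x : ℕ, 2 * x < N → ∀ K : ℝ, 0 ≤ K →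
      (0 ≤ σ N + ε → VU (Cut U K) W N x ω ≤ (σ N + ε) * K / Real.log N + C) ∧
      (0 ≤ σ N - ε → K ≤ rk U ω x → (σ N - ε) * (K - 1) / Real.log N - C ≤ VU (Cut U K) W N x ω)

/-- PI-CRK. The elements of rank at most `K` are at most `K` many.

Proof. Induction on `x`: if `ω ∉ Cut U K (x + 1)` clear; otherwise
`rk (Cut U K) ω (x + 1) ≤ rk U ω (x + 1) ≤ K` (termwise `In (Cut U K) ≤ In U`). -/
def S_CRK : Prop :=
  ∀ (Ω : Type) (U : ℕ → Set Ω) (K : ℝ) (ω : Ω) (x : ℕ), 0 ≤ K → rk (Cut U K) ω x ≤ K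

/-- PI-PUP. Upper bound for the probability that `N` is avoided.

Proof. For `S ⊆ Icc 1 x` let `H S = {ω | ∀ s ∈ Icc 1 x, (ω ∈ U s ↔ s ∈ S)}`: these events are in `ℱ x`,
disjoint and cover `Ω`. On `H S`, `VU U W N x ω = ∑_{s ∈ S} rhoW W (N - s) = ∑_{m ∈ R} rhoW W m`,
`R = S.image (N - ·) ⊆ Ioc x (x + (N - 1 - x))` (since `2 x < N`; the map is injective on `S`), and
`Avoid A U N x` says that all `m ∈ R` are missed. If `∑ < c` the event is empty on `H S`, otherwise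
PI-MISS (with `y = x`, `h = N - 1 - x`, `B = H S`) bounds its probability by `exp (-((1-δ) c)) μ (H S)`;
sum over `S` (the `μ (H S)` sum to `1`). -/
def S_PUP : Prop :=
  ∀ (Ω : Type) [m0 : MeasurableSpace Ω] (μ : Measure Ω) [IsProbabilityMeasure μ] (ℱ : Filtration ℕ m0)
    (A U : ℕ → Set Ω) (W N x : ℕ) (δ c : ℝ), (∀ n, MeasurableSet[ℱ n] (A n)) →
    (∀ n, MeasurableSet[ℱ n] (U n)) → 0 ≤ δ → δ ≤ 1 → 2 * x < N →
    μ.real ((Avoid A U N x ∩ {ω | c ≤ VU U W N x ω}) \ WV (VX μ ℱ A W δ) x (N - 1 - x)) ≤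
      Real.exp (-((1 - δ) * c))

/-- PI-PLOW. The probability that no `N ≡ r` in `(Y, Y + L]` is avoided by the `s ≤ N / 3`.

Proof. For `S ⊆ Icc 1 M` let `H S = {ω | ∀ s ∈ Icc 1 M, (ω ∈ U s ↔ s ∈ S)}` (in `ℱ M`, disjoint, they
cover `Ω`). If `H S` is not empty then `|S| = rk U ω M ≤ K`. Let `I` be as in PI-GRD for `S`, `W`, `r`,
`Y`, `L`, `J`. For `N ∈ I` let `P N = (S.filter (· ≤ N / 3)).image (N - ·)`. For `N ≤ Y + L`, `N / 3 ≤ M`,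
and `N - s > M` for `s ≤ N / 3`, `N > Y` (as `3 M ≤ 2 Y`), so `P N ⊆ Ioc M (M + (Y + L - M))`; the `P N` are
disjoint by PI-GRD. On `H S`: `VU U W N (N / 3) ω = ∑_{m ∈ P N} rhoW W m` and `ω ∉ Avoid` iff `P N` is hit.
If `∑_{m ∈ P N} rhoW W m > c` for some `N ∈ I`, the event is empty on `H S`. Otherwise PI-HIT (`y = M`,
`h = Y + L - M`, `B = H S`) gives the bound `(1 - q)^J μ (H S) ≤ exp (- J q) μ (H S)`, where
`q = exp (-((1 + 2 θ) (1 + δ) c))`, since `1 - u ≥ exp (-(1 + 2 θ) u)` for `0 ≤ u ≤ θ ≤ 1 / 2`. Sum over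
`S`. -/
def S_PLOW : Prop :=
  ∀ (Ω : Type) [m0 : MeasurableSpace Ω] (μ : Measure Ω) [IsProbabilityMeasure μ] (ℱ : Filtration ℕ m0)
    (A U : ℕ → Set Ω) (W r M Y L J : ℕ) (δ θ K c : ℝ), (∀ n, MeasurableSet[ℱ n] (A n)) →
    (∀ n, MeasurableSet[ℱ n] (U n)) → 0 < W → (∀ ω x, rk U ω x ≤ K) → Y + L ≤ 3 * M → 3 * M ≤ 2 * Y →
    (W : ℝ) * (J * (K ^ 2 + 1) + 1) ≤ L → 0 ≤ δ → 0 ≤ θ → θ ≤ 1 / 2 →
    (∀ m, M < m → (1 + δ) * rhoW W m ≤ θ) →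
    μ.real ({ω | ∀ N, Y < N → N ≤ Y + L → N % W = r % W →
        VU U W N (N / 3) ω ≤ c ∧ ω ∉ Avoid A U N (N / 3)} \ WV (VX μ ℱ A W δ) M (Y + L - M)) ≤
      Real.exp (-(J * Real.exp (-((1 + 2 * θ) * (1 + δ) * c))))

/-- PI-CNT. The number of the events which occur (Borel-Cantelli with weights).

Proof. `∑_{N ≥ 1} μ (E N) N^(-a) < ∞` (as `a + b > 1`), so almost surely
`Z = ∑_{N ≥ 1} 1_{E N} N^(-a) < ∞` (`lintegral_tsum`, `ae_lt_top`, or summability of the indicators),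
and `#{1 ≤ N ≤ X, ω ∈ E N} * X^(-a) ≤ Z` since `a ≥ 0`. Add `1` for `N = 0`. -/
def S_CNT : Prop :=
  ∀ (Ω : Type) [MeasurableSpace Ω] (μ : Measure Ω) [IsProbabilityMeasure μ] (E : ℕ → Set Ω) (a b : ℝ),
    (∀ n, MeasurableSet (E n)) → 0 ≤ a → 1 < a + b →
    (∀ᶠ N : ℕ in atTop, μ.real (E N) ≤ (N : ℝ) ^ (-b)) →
    ∀ᵐ ω ∂μ, ∃ C : ℝ, ∀ X : ℕ, 1 ≤ X → (({N : ℕ | N ≤ X ∧ ω ∈ E N}.ncard : ℕ) : ℝ) ≤ C * (X : ℝ) ^ a

/-- PI-AUP. The events behind the upper bound.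

Proof. Put `x_N = (N - 1) / 2`, `K_N = κ (log N)²`, `c_N = (κ s - η / 2) log N`,
`E N = (Avoid A (Cut U K_N) N x_N ∩ {c_N ≤ VU (Cut U K_N) W N x_N}) \ WV (VX μ ℱ A W δ) x_N (N - 1 - x_N)`,
`δ ∈ (0, 1]` with `(1 - δ) (κ s - η / 2) ≥ κ s - η`. PI-PUP (with `Cut U K_N`, `Cut_meas`) gives
`μ (E N) ≤ exp (-(1 - δ) c_N) ≤ N^(-(κ s - η))`. Let `ω` be such that the law and the profile hold. The
profile says `ω ∉ VX .. n` for `n ≥ n₀`, so `ω ∉ WV .. x_N ..` for large `N`. Let `σ N = s` and let `x` be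
as in the statement. By PI-CUT with `ε = min (s / 2) (η / (8 (κ + 1)))`, `K = K_N ≤ rk x ≤ rk x_N`,
`VU (Cut U K_N) W N x_N ω ≥ (s - ε) (K_N - 1) / log N - C ≥ c_N` for large `N`. And
`ω ∈ Avoid A (Cut U K_N) N x_N`: if `t ≤ x_N`, `ω ∈ Cut U K_N t`, then `t ≤ x`, because `t > x`, `ω ∈ U t`
give `rk t ≥ rk x + 1 > K_N`. -/
def S_AUP : Prop :=
  ∀ (Ω : Type) [m0 : MeasurableSpace Ω] (μ : Measure Ω) [IsProbabilityMeasure μ] (ℱ : Filtration ℕ m0)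
    (A U : ℕ → Set Ω) (W : ℕ) (σ : ℕ → ℝ), (∀ n, MeasurableSet[ℱ n] (A n)) →
    (∀ n, MeasurableSet[ℱ n] (U n)) →
    (∀ᵐ ω ∂μ, ∀ ε : ℝ, 0 < ε → ∀ᶠ n : ℕ in atTop,
      |dens μ ℱ A n ω - rhoW W (n + 1)| ≤ ε * rhoW W (n + 1)) →
    (∀ᵐ ω ∂μ, Law U W σ ω) → ∀ s κ η : ℝ, 0 < s → 0 ≤ κ → 0 < η →
    ∃ E : ℕ → Set Ω, (∀ N, MeasurableSet (E N)) ∧
      (∀ᶠ N : ℕ in atTop, μ.real (E N) ≤ (N : ℝ) ^ (-(κ * s - η))) ∧
      ∀ᵐ ω ∂μ, ∀ᶠ N : ℕ in atTop, σ N = s →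
        (∃ x : ℕ, 2 * x < N ∧ κ * Real.log N ^ 2 ≤ rk U ω x ∧ ∀ t, 1 ≤ t → t ≤ x → ω ∈ U t → ω ∉ A (N - t)) →
        ω ∈ E N

/-- PI-ALOW. The lower bound: exceptional `N` in all intervals `(Y, Y + Y^(κ σ(r) + ε)]`.

Proof. Let `a = κ * σ r`, `K_Y = κ (log (2 Y))²`, `L_Y = ⌊Y^(a + ε / 2)⌋` (so `L_Y ≤ Y / 4` for large `Y`),
`M_Y = (2 * Y) / 3`, `c_Y = (a + ε / 16) log Y`, `J_Y = ⌊Y^(a + 3 ε / 8)⌋`, and `δ = θ > 0` so small that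
`(1 + 2 θ) (1 + δ) (a + ε / 16) ≤ a + ε / 8`. For large `Y` the hypotheses of PI-PLOW hold for
`Cut U K_Y` (PI-CRK, `Cut_meas`; `rhoW W m → 0`; `W (J (K² + 1) + 1) ≤ L` since `K_Y` is a power of `log`),
so with `D Y` the event there, `μ (D Y) ≤ exp (-(J_Y Y^(-(a + ε / 8)))) ≤ exp (-(Y^(ε / 4) - 1))`, which is
summable; by `bc_real` almost surely `ω ∉ D Y` for large `Y`. Almost surely `ω ∉ WV (VX ..) M_Y ..` for large
`Y` (profile), and by PI-CUT (with `ε' = ε / (64 (κ + 1))`, `x = N / 3`, `K = K_Y`, `σ N = σ r`, `N > Y`) for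
all `Y < N ≤ Y + L_Y` with `N ≡ r`:
`VU (Cut U K_Y) W N (N / 3) ω ≤ (σ r + ε') K_Y / log N + C ≤ c_Y`. So there is `N` in `(Y, Y + L_Y]`,
`N ≡ r`, with `ω ∈ Avoid A (Cut U K_Y) N (N / 3)`; and `ω ∈ U t`, `rk U ω t ≤ κ (log N)² ≤ K_Y` imply
`ω ∈ Cut U K_Y t`. -/
def S_ALOW : Prop :=
  ∀ (Ω : Type) [m0 : MeasurableSpace Ω] (μ : Measure Ω) [IsProbabilityMeasure μ] (ℱ : Filtration ℕ m0)
    (A U : ℕ → Set Ω) (W : ℕ) (σ : ℕ → ℝ), (∀ n, MeasurableSet[ℱ n] (A n)) →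
    (∀ n, MeasurableSet[ℱ n] (U n)) → 0 < W → (∀ N N' : ℕ, N % W = N' % W → σ N = σ N') →
    (∀ᵐ ω ∂μ, ∀ ε : ℝ, 0 < ε → ∀ᶠ n : ℕ in atTop,
      |dens μ ℱ A n ω - rhoW W (n + 1)| ≤ ε * rhoW W (n + 1)) →
    (∀ᵐ ω ∂μ, Law U W σ ω) → ∀ (r : ℕ) (κ ε : ℝ), 0 ≤ σ r → 0 ≤ κ → 0 < ε → κ * σ r + ε ≤ 1 →
    ∀ᵐ ω ∂μ, ∀ᶠ Y : ℕ in atTop, ∃ N : ℕ, Y < N ∧ (N : ℝ) ≤ Y + (Y : ℝ) ^ (κ * σ r + ε) ∧
      N % W = r % W ∧ ∀ t, 1 ≤ t → 3 * t ≤ N → ω ∈ U t → rk U ω t ≤ κ * Real.log N ^ 2 → ω ∉ A (N - t)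

/-- PI-SIZE. From ranks to sizes: `f x ~ x / (log x)^m`.

Proof. Let `g_a(N) = a 2^m (log N)² (log log N)^m`. For every `a > 0`, `log g_a(N) ~ 2 log log N`, so
`f ⌊g_a(N)⌋ ~ g_a(N) / (2 log log N)^m = a (log N)²` (apply the hypothesis along `⌊g_a(N)⌋ → ∞`). First
part: `f s ≤ f ⌊g_a(N)⌋ ≤ b (log N)²` for large `N` by monotonicity. Second part: `x = ⌊g_{a'}(N)⌋`
with `a' = (a + b) / 2`; `f x ~ a' (log N)²`, and `2 x < N`. -/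
def S_SIZE : Prop :=
  ∀ f : ℕ → ℝ, Monotone f → ∀ m : ℕ, Tendsto (fun x : ℕ => f x * Real.log x ^ m / x) atTop (𝓝 1) →
    ∀ a b : ℝ, 0 < a → a < b → ∀ᶠ N : ℕ in atTop,
      (∀ s : ℕ, (s : ℝ) ≤ a * 2 ^ m * (Real.log N ^ 2 * Real.log (Real.log N) ^ m) →
        3 * s ≤ N ∧ f s ≤ b * Real.log N ^ 2) ∧
      ∃ x : ℕ, 2 * x < N ∧ (x : ℝ) ≤ b * 2 ^ m * (Real.log N ^ 2 * Real.log (Real.log N) ^ m) ∧
        a * Real.log N ^ 2 ≤ f x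

end Pool.Agent.H95.PI
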